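import Mathlib

/-!
# Maximum order complexity of the Zeckendorf parity sequence

`M(S_Z, N) / N` does not converge, so it is not asymptotic to `1 / (1 + φ²)`.
-/

namespace Pool.Agent.Results.MP_b74c76_co.NoLimit

open Filter Topology
open Nat (fib zeckendorf)

/-- The Zeckendorf parity sequence: `true` at `n` if the number of terms of the Zeckendorf
representation of `n` is odd, `false` if it is even. -/
def SZ (n : ℕ) : Bool := decide ((zeckendorf n).length % 2 = 1)

/-- The `N`th maximum order complexity of a binary sequence: the least `k` for which some feedback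
function `f : {0,1}^k → {0,1}` satisfies `s (i + k) = f (s i, …, s (i + k - 1))` whenever
`i + k ≤ N - 1`. -/
noncomputable def M (s : ℕ → Bool) (N : ℕ) : ℕ :=
  sInf {k | ∃ f : (Fin k → Bool) → Bool, ∀ i, i + k < N → s (i + k) = f (fun t => s (i + t))}

/-! ### The shift of the Zeckendorf representation -/

/-- is the least Zeckendorf index of `n` equal to `2`? -/
def ep (n : ℕ) : Bool := decide (2 ∈ zeckendorf n)

/-- the shift of the Zeckendorf representation -/
def tau (n : ℕ) : ℕ := ((zeckendorf n).map (fun i => fib (i + 1))).sum

theorem zeck_add {k t : ℕ} (h : t < fib (k + 1)) :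
    zeckendorf (fib (k + 2) + t) = (k + 2) :: zeckendorf t := by
  have hpos : 0 < fib (k + 2) + t := by
    have : 0 < fib (k + 2) := Nat.fib_pos.2 (by omega)
    omega
  have hg : Nat.greatestFib (fib (k + 2) + t) = k + 2 := by
    apply le_antisymm
    · rw [← Nat.lt_succ_iff, Nat.greatestFib_lt]
      have := Nat.fib_add_two (n := k + 1)
      simp only [Nat.succ_eq_add_one]
      rw [show k + 2 + 1 = k + 1 + 2 by ring, this]
      rw [show k + 1 + 1 = k + 2 by ring]
      omega
    · rw [Nat.le_greatestFib]; omega
  rw [Nat.zeckendorf_of_pos hpos, hg]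
  simp

theorem exists_fib {n : ℕ} (h : 0 < n) : ∃ k t, t < fib (k + 1) ∧ n = fib (k + 2) + t := by
  have h2 : 2 ≤ Nat.greatestFib n := by
    rw [Nat.le_greatestFib, Nat.fib_two]
    omega
  obtain ⟨k, hk⟩ := Nat.exists_eq_add_of_le h2
  have h3 := Nat.fib_greatestFib_le n
  have h4 := Nat.lt_fib_greatestFib_add_one n
  rw [hk, show 2 + k = k + 2 by ring] at h3
  rw [hk, show 2 + k + 1 = (k + 1) + 2 by ring, Nat.fib_add_two,
    show k + 1 + 1 = k + 2 by ring] at h4
  exact ⟨k, n - fib (k + 2), by omega, by omega⟩

theorem SZ_add {k t : ℕ} (h : t < fib (k + 1)) : SZ (fib (k + 2) + t) = !SZ t := by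
  unfold SZ
  rw [zeck_add h, List.length_cons]
  rcases Nat.mod_two_eq_zero_or_one (zeckendorf t).length with h | h
  · have : ((zeckendorf t).length + 1) % 2 = 1 := by omega
    simp [h, this]
  · have : ((zeckendorf t).length + 1) % 2 = 0 := by omega
    simp [h, this]

theorem tau_add {k t : ℕ} (h : t < fib (k + 1)) : tau (fib (k + 2) + t) = fib (k + 3) + tau t := by
  unfold tau
  rw [zeck_add h]; simp

theorem ep_add {k t : ℕ} (h : t < fib (k + 2)) : ep (fib (k + 3) + t) = ep t := by
  unfold ep
  rw [zeck_add (k := k + 1) h]; simp

theorem SZ_zero : SZ 0 = false := by simp [SZ]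
theorem ep_zero : ep 0 = false := by simp [ep]
theorem tau_zero : tau 0 = 0 := by simp [tau]

theorem ep_one : ep 1 = true := by
  have := zeck_add (k := 0) (t := 0) (by simp)
  simp only [zero_add, Nat.fib_two, add_zero] at this
  unfold ep
  rw [this]; simp

theorem tau_fib (k : ℕ) : tau (fib (k + 2)) = fib (k + 3) := by
  have := tau_add (k := k) (t := 0) (Nat.fib_pos.2 (by omega))
  simpa [tau_zero] using this

theorem tau_succ (n : ℕ) : tau (n + 1) = tau n + if ep n then 1 else 2 := by
  induction n using Nat.strong_induction_on with
  | _ n ih =>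
    rcases Nat.eq_zero_or_pos n with rfl | hn
    · have := tau_fib 0
      simp only [zero_add, Nat.fib_two] at this
      rw [zero_add, this, tau_zero, ep_zero]
      simp [Nat.fib_add_two]
    · obtain ⟨k, t, ht, rfl⟩ := exists_fib hn
      have hlt : t < fib (k + 2) + t := by
        have : 0 < fib (k + 2) := Nat.fib_pos.2 (by omega)
        omega
      have IH := ih t hlt
      rcases k with _ | k
      · have ht0 : t = 0 := by simpa using ht
        subst ht0
        have h1 := tau_fib 1
        have h2 := tau_fib 0
        have e1 : fib 2 + 0 + 1 = fib 3 := by decide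
        have e2 : fib 2 + 0 = 1 := by decide
        have e3 : fib (1 + 3) = 3 := by decide
        have e4 : fib (0 + 3) = 2 := by decide
        simp only [zero_add] at h1 h2 ⊢
        rw [e1, e2, ep_one]
        have h1' : tau (fib 3) = 3 := by rw [show (3 : ℕ) = 1 + 2 by rfl, tau_fib]; decide
        have h2' : tau 1 = 2 := by
          have := tau_fib 0
          simpa [Nat.fib_add_two] using this
        rw [h1', h2']; simp
      · rw [ep_add ht, tau_add ht]
        have ht' : t < fib (k + 2) := ht
        rcases Nat.lt_or_ge (t + 1) (fib (k + 2)) with h | h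
        · rw [add_assoc, tau_add h, IH]; ring
        · have ht1 : t + 1 = fib (k + 2) := by omega
          have e1 : fib (k + 1 + 2) + t + 1 = fib (k + 2 + 2) := by
            rw [Nat.fib_add_two (n := k + 2)]
            rw [show k + 2 + 1 = k + 1 + 2 by ring]; omega
          rw [e1, tau_fib]
          rw [ht1, tau_fib] at IH
          rw [Nat.fib_add_two (n := k + 2 + 1)]
          rw [show k + 2 + 1 + 1 = k + 1 + 3 by ring, show k + 2 + 1 = k + 3 by ring]
          omega

theorem tau_strictMono : StrictMono tau := by
  apply strictMono_nat_of_lt_succ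
  intro n
  rw [tau_succ]
  split_ifs <;> omega

theorem le_tau (n : ℕ) : n ≤ tau n := tau_strictMono.le_apply

theorem shift (n : ℕ) : SZ (tau n) = SZ n ∧ ep (tau n) = false ∧
    (ep n = false → SZ (tau n + 1) = (!SZ n) ∧ ep (tau n + 1) = true) := by
  induction n using Nat.strong_induction_on with
  | _ n ih =>
    rcases Nat.eq_zero_or_pos n with rfl | hn
    · rw [tau_zero, ep_zero]
      refine ⟨rfl, rfl, fun _ => ⟨?_, ep_one⟩⟩
      have := SZ_add (k := 0) (t := 0) (by simp)
      simpa using this
    · obtain ⟨k, t, ht, rfl⟩ := exists_fib hn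
      have hlt : t < fib (k + 2) + t := by
        have : 0 < fib (k + 2) := Nat.fib_pos.2 (by omega)
        omega
      obtain ⟨h1, h2, h3⟩ := ih t hlt
      have htau : tau t < fib (k + 2) := by
        rcases k with _ | k
        · have ht0 : t = 0 := by simpa using ht
          subst ht0; simp [tau_zero]
        · have := tau_strictMono ht
          rw [show k + 1 + 1 = k + 2 by ring, tau_fib] at this
          exact this
      rw [tau_add ht]
      refine ⟨?_, ?_, ?_⟩
      · rw [show fib (k + 3) = fib (k + 1 + 2) by ring_nf, SZ_add (k := k + 1) htau, h1,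
          SZ_add ht]
      · rw [ep_add htau, h2]
      · intro he
        rcases k with _ | k
        · have ht0 : t = 0 := by simpa using ht
          subst ht0
          exfalso
          have : fib (0 + 2) + 0 = 1 := by decide
          rw [this, ep_one] at he
          exact absurd he (by decide)
        · rw [ep_add ht] at he
          obtain ⟨h4, h5⟩ := h3 he
          have hs : tau (t + 1) = tau t + 2 := by rw [tau_succ, he]; simp
          have hle : tau (t + 1) ≤ fib (k + 3) := by
            rw [← tau_fib]
            exact tau_strictMono.monotone ht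
          have hlt2 : tau t + 1 < fib (k + 1 + 2) := by
            rw [show k + 1 + 2 = k + 3 by ring]; omega
          rw [add_assoc]
          refine ⟨?_, ?_⟩
          · rw [show fib (k + 1 + 3) = fib (k + 1 + 1 + 2) by ring_nf,
              SZ_add (k := k + 1 + 1) hlt2, h4, SZ_add ht]
          · rw [ep_add hlt2, h5]

theorem ep_tau (n : ℕ) : ep (tau n) = false := (shift n).2.1
theorem SZ_tau (n : ℕ) : SZ (tau n) = SZ n := (shift n).1

theorem cover (m : ℕ) : ∃ n, m = tau n ∨ (m = tau n + 1 ∧ ep n = false) := by
  induction m with
  | zero => exact ⟨0, Or.inl tau_zero.symm⟩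
  | succ m ih =>
    obtain ⟨n, rfl | ⟨rfl, hn⟩⟩ := ih
    · cases h : ep n
      · exact ⟨n, Or.inr ⟨rfl, h⟩⟩
      · exact ⟨n + 1, Or.inl (by rw [tau_succ, h]; simp)⟩
    · exact ⟨n + 1, Or.inl (by rw [tau_succ, hn]; simp)⟩

theorem ep_tau_add_one (n : ℕ) : ep (tau n + 1) = !ep n := by
  cases h : ep n
  · exact ((shift n).2.2 h).2
  · have : tau (n + 1) = tau n + 1 := by rw [tau_succ, h]; simp
    rw [← this, ep_tau]; rfl

theorem tau_tau (n : ℕ) : tau (tau n) = tau n + n := by
  induction n with
  | zero => simp [tau_zero]
  | succ n ih =>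
    have h1 : tau (tau n + 1) = tau (tau n) + 2 := by rw [tau_succ, ep_tau]; simp
    cases h : ep n
    · have h2 : tau (n + 1) = tau n + 2 := by rw [tau_succ, h]; simp
      have h3 : tau (tau n + 1 + 1) = tau (tau n + 1) + 1 := by
        rw [tau_succ, ep_tau_add_one, h]; simp
      rw [h2, show tau n + 2 = tau n + 1 + 1 by ring, h3, h1, ih]; ring
    · have h2 : tau (n + 1) = tau n + 1 := by rw [tau_succ, h]; simp
      rw [h2, h1, ih]; ring

theorem tau_tau_add_one (n : ℕ) : tau (tau n + 1) = tau n + n + 2 := by
  rw [tau_succ, ep_tau, tau_tau]; simp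

/-! ### The underlying morphic word -/

/-- the underlying word over four letters -/
def u (n : ℕ) : Bool × Bool := (SZ n, ep n)

/-- the morphism fixing `u` -/
def σ (x : Bool × Bool) : List (Bool × Bool) :=
  if x.2 then [(x.1, false)] else [(x.1, false), (!x.1, true)]

/-- the factor of `u` of length `l` at position `n` -/
def fac (n l : ℕ) : List (Bool × Bool) := (List.range l).map fun t => u (n + t)

theorem fac_tau (n l : ℕ) : (fac n l).flatMap σ = fac (tau n) (tau (n + l) - tau n) := by
  induction l with
  | zero => simp [fac]
  | succ l ih =>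
    have h1 : fac n (l + 1) = fac n l ++ [u (n + l)] := by
      simp [fac, List.range_succ]
    rw [h1, List.flatMap_append, ih]
    have hle : tau n ≤ tau (n + l) := tau_strictMono.monotone (by omega)
    cases h : ep (n + l)
    · have h2 : tau (n + (l + 1)) - tau n = (tau (n + l) - tau n) + 1 + 1 := by
        rw [← add_assoc, tau_succ, h]; simp; omega
      rw [h2]
      have h3 : tau n + (tau (n + l) - tau n) = tau (n + l) := by omega
      have h4 := ((shift (n + l)).2.2 h)
      simp only [fac, List.range_succ, List.map_append, List.map_cons, List.map_nil,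
        List.append_assoc, List.flatMap_cons, List.flatMap_nil, List.append_nil]
      congr 1
      rw [← add_assoc, h3]
      simp [σ, u, h, SZ_tau, ep_tau, h4.1, h4.2]
    · have h2 : tau (n + (l + 1)) - tau n = (tau (n + l) - tau n) + 1 := by
        rw [← add_assoc, tau_succ, h]; simp; omega
      rw [h2]
      have h3 : tau n + (tau (n + l) - tau n) = tau (n + l) := by omega
      simp only [fac, List.range_succ, List.map_append, List.map_cons, List.map_nil,
        List.flatMap_cons, List.flatMap_nil, List.append_nil]
      congr 1
      rw [h3]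
      simp [σ, u, h, SZ_tau, ep_tau]

theorem fac_length (n l : ℕ) : (fac n l).length = l := by simp [fac]

theorem fac_get {n l t : ℕ} (h : t < l) : (fac n l)[t]? = some (u (n + t)) := by
  simp [fac, h]

theorem fac_eq_iff {i j l : ℕ} : fac i l = fac j l ↔ ∀ t < l, u (i + t) = u (j + t) := by
  simp [fac]

/-- the factors of length four -/
def FL : List (List (Bool × Bool)) :=
  [[(false, false), (false, false), (true, true), (false, false)],
   [(false, false), (false, false), (true, true), (true, false)],
   [(false, false), (true, true), (false, false), (true, true)],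
   [(false, false), (true, true), (true, false), (false, false)],
   [(false, false), (true, true), (true, false), (true, false)],
   [(false, false), (true, true), (true, false), (false, true)],
   [(false, false), (true, false), (false, true), (false, false)],
   [(true, true), (false, false), (true, true), (true, false)],
   [(true, true), (true, false), (false, false), (true, true)],
   [(true, true), (true, false), (true, false), (false, true)],
   [(true, true), (true, false), (false, true), (false, false)],
   [(true, false), (false, false), (true, true), (true, false)],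
   [(true, false), (true, false), (false, true), (false, false)],
   [(true, false), (true, false), (false, true), (true, false)],
   [(true, false), (false, true), (false, false), (false, false)],
   [(true, false), (false, true), (false, false), (true, true)],
   [(true, false), (false, true), (false, false), (true, false)],
   [(true, false), (false, true), (true, false), (false, true)],
   [(false, true), (false, false), (false, false), (true, true)],
   [(false, true), (false, false), (true, true), (true, false)],
   [(false, true), (false, false), (true, false), (false, true)],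
   [(false, true), (true, false), (false, true), (false, false)]]

theorem fac_mem (n : ℕ) : fac n 4 ∈ FL := by
  induction n using Nat.strong_induction_on with
  | _ m ih =>
    have hstep : ∀ n, n < m → (m = tau n ∨ (m = tau n + 1 ∧ ep n = false)) → fac m 4 ∈ FL := by
      intro n hn hm
      have h1 := fac_tau n 4
      have h2 := ih n hn
      rcases hm with rfl | ⟨rfl, he⟩
      · have h3 : 4 ≤ tau (n + 4) - tau n := by
          have e1 := tau_strictMono (show n < n + 1 by omega)
          have e2 := tau_strictMono (show n + 1 < n + 2 by omega)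
          have e3 := tau_strictMono (show n + 2 < n + 3 by omega)
          have e4 := tau_strictMono (show n + 3 < n + 4 by omega)
          omega
        have h4 : fac (tau n) 4 = ((fac n 4).flatMap σ).take 4 := by
          rw [h1]
          simp only [fac, ← List.map_take, List.take_range]
          rw [min_eq_left h3]
        rw [h4]
        have hdec : ∀ w ∈ FL, (w.flatMap σ).take 4 ∈ FL := by decide
        exact hdec _ h2
      · have h3 : 5 ≤ tau (n + 4) - tau n := by
          have e1 : tau (n + 1) = tau n + 2 := by rw [tau_succ, he]; simp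
          have e2 := tau_strictMono (show n + 1 < n + 2 by omega)
          have e3 := tau_strictMono (show n + 2 < n + 3 by omega)
          have e4 := tau_strictMono (show n + 3 < n + 4 by omega)
          omega
        have h4 : fac (tau n + 1) 4 = (((fac n 4).flatMap σ).take 5).drop 1 := by
          rw [h1]
          simp only [fac, ← List.map_take, List.take_range]
          rw [min_eq_left h3]
          simp [List.range_succ, add_assoc]
        rw [h4]
        have hdec : ∀ w ∈ FL, (w.head?.map Prod.snd = some false) →
            ((w.flatMap σ).take 5).drop 1 ∈ FL := by decide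
        apply hdec _ h2
        simp [fac, List.range_succ, u, he]
    obtain ⟨n, hn⟩ := cover m
    have hle := le_tau n
    rcases Nat.lt_or_ge n m with h | h
    · exact hstep n h hn
    · -- then `m = n = 0`
      rcases hn with rfl | ⟨rfl, _⟩
      · rcases Nat.eq_zero_or_pos n with rfl | hpos
        · rw [tau_zero]
          have c0 : tau 1 = 2 := by have := tau_succ 0; rw [tau_zero, ep_zero] at this; simpa using this
          have s0 := SZ_zero
          have s1 : SZ 1 = true := by
            have := (shift 0).2.2 ep_zero
            rw [tau_zero, SZ_zero] at this; simpa using this.1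
          have c1 : tau 2 = 3 := by have := tau_succ 1; rw [c0, ep_one] at this; simpa using this
          have s2 : SZ 2 = true := by rw [← c0, SZ_tau, s1]
          have e2 : ep 2 = false := by rw [← c0, ep_tau]
          have s3 : SZ 3 = true := by rw [← c1, SZ_tau, s2]
          have e3 : ep 3 = false := by rw [← c1, ep_tau]
          have : fac 0 4 = [(false, false), (true, true), (true, false), (true, false)] := by
            simp [fac, List.range_succ, u, s0, s1, s2, s3, ep_zero, ep_one, e2, e3]
          rw [this]; decide
        · exfalso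
          have h1 : tau 1 ≤ tau n := tau_strictMono.monotone hpos
          have h2 : ∀ k, 1 ≤ k → k < tau k := by
            intro k hk
            induction k, hk using Nat.le_induction with
            | base => have := tau_succ 0; rw [tau_zero, ep_zero] at this; simp at this; omega
            | succ k _ ih => have := tau_strictMono (show k < k + 1 by omega); omega
          have := h2 n hpos
          omega
      · omega

/-- a window of length four of `SZ` determines the second letter of `u` in it -/
theorem recog {i j : ℕ} (h : ∀ t < 4, SZ (i + t) = SZ (j + t)) : u (i + 1) = u (j + 1) := by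
  have hdec : ∀ w ∈ FL, ∀ w' ∈ FL, w.map Prod.fst = w'.map Prod.fst → w[1]? = w'[1]? := by
    decide
  have h1 := hdec _ (fac_mem i) _ (fac_mem j) (by
    simp only [fac, List.map_map]
    apply List.map_congr_left
    intro t ht
    simpa [u] using h t (by simpa using ht))
  rw [fac_get (by omega), fac_get (by omega)] at h1
  simpa using h1

/-- the prefix of length `34` of `u` -/
def T : List (Bool × Bool) :=
  [(false, false), (true, true), (true, false), (true, false), (false, true), (true, false),
   (false, true), (false, false), (true, false), (false, true), (false, false), (false,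
   false), (true, true), (true, false), (false, true), (false, false), (false, false), (true,
   true), (false, false), (true, true), (true, false), (true, false), (false, true), (false,
   false), (false, false), (true, true), (false, false), (true, true), (true, false), (false,
   false), (true, true), (true, false), (true, false), (false, true)]

theorem fac_flat {l : ℕ} {w : List (Bool × Bool)} (h : fac 0 l = w) :
    fac 0 (w.flatMap σ).length = w.flatMap σ := by
  subst h
  have := fac_tau 0 l
  rw [this, tau_zero, fac_length]

theorem fac_T : fac 0 34 = T := by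
  have h0 : fac 0 1 = [(false, false)] := by
    simp [fac, List.range_succ, u, SZ_zero, ep_zero]
  have h1 := fac_flat h0
  have h2 := fac_flat h1
  have h3 := fac_flat h2
  have h4 := fac_flat h3
  have h5 := fac_flat h4
  have h6 := fac_flat h5
  have h7 := fac_flat h6
  exact h7

theorem u_T {n : ℕ} (h : n < 34) : T[n]? = some (u n) := by
  rw [← fac_T, fac_get h, zero_add]

theorem tau_T {n : ℕ} (h : n ≤ 34) : tau n = ((T.take n).flatMap σ).length := by
  have h1 : T.take n = fac 0 n := by
    rw [← fac_T]
    simp only [fac, ← List.map_take, List.take_range]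
    rw [min_eq_left h]
  rw [h1, fac_tau, fac_length, tau_zero, zero_add, Nat.sub_zero]

/-- the check of the pair of positions `i < j` with common factor of length `l` -/
def chk (j i l : ℕ) : Bool :=
  !((List.range l).all fun t => T[i + t]? == T[j + t]?) || (T[i + l]? == T[j + l]?) ||
    (decide (l + 2 ≤ 7) &&
      decide (((T.take (i + l)).flatMap σ).length + 1 ≤ ((T.take i).flatMap σ).length + l + 4))

theorem chk_all : ((List.range 29).all fun j => (List.range j).all fun i =>
    (List.range (29 - j)).all fun l => chk j i l) = true := by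
  decide +kernel

theorem base {i j l : ℕ} (hij : i < j) (hj : j + l < 29)
    (hm : ∀ t < l, T[i + t]? = T[j + t]?) (hne : T[i + l]? ≠ T[j + l]?) : l + 2 ≤ 7 ∧
      ((T.take (i + l)).flatMap σ).length + 1 ≤ ((T.take i).flatMap σ).length + l + 4 := by
  have h := chk_all
  rw [List.all_eq_true] at h
  have h1 := h j (by simp; omega)
  rw [List.all_eq_true] at h1
  have h2 := h1 i (by simpa using hij)
  rw [List.all_eq_true] at h2
  have h3 := h2 l (by simp; omega)
  unfold chk at h3
  have h4 : ((List.range l).all fun t => T[i + t]? == T[j + t]?) = true := by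
    rw [List.all_eq_true]
    intro t ht
    rw [beq_iff_eq]
    exact hm t (by simpa using ht)
  have h5 : (T[i + l]? == T[j + l]?) = false := by
    simpa using hne
  rw [h4, h5] at h3
  simpa using h3

/-- the Lucas number `L (s + 4)` -/
def A (s : ℕ) : ℕ := fib (5 + s) + fib (3 + s)

/-- the Lucas number `L (s + 3)` -/
def B (s : ℕ) : ℕ := fib (4 + s) + fib (2 + s)

/-- the Lucas number `L (s + 7)` -/
def Nn (s : ℕ) : ℕ := fib (8 + s) + fib (6 + s)

theorem A_succ (s : ℕ) : A (s + 1) = A s + B s := by
  unfold A B
  have h1 : fib (5 + (s + 1)) = fib (4 + s) + fib (5 + s) := by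
    rw [show 5 + (s + 1) = 4 + s + 2 by ring, Nat.fib_add_two, show 4 + s + 1 = 5 + s by ring]
  have h2 : fib (3 + (s + 1)) = fib (2 + s) + fib (3 + s) := by
    rw [show 3 + (s + 1) = 2 + s + 2 by ring, Nat.fib_add_two, show 2 + s + 1 = 3 + s by ring]
  omega

theorem B_succ (s : ℕ) : B (s + 1) = A s := by
  unfold A B
  rw [show 4 + (s + 1) = 5 + s by ring, show 2 + (s + 1) = 3 + s by ring]

theorem tau_Nn (s : ℕ) : tau (Nn s) = Nn (s + 1) := by
  unfold Nn
  have h1 : fib (6 + s) < fib (s + 6 + 1) := by
    rw [show 6 + s = s + 6 by ring]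
    exact Nat.fib_lt_fib_succ (by omega)
  have h2 := tau_add (k := s + 6) h1
  rw [show s + 6 + 2 = 8 + s by ring] at h2
  rw [h2, show 6 + s = (s + 4) + 2 by ring, tau_fib]
  rw [show s + 6 + 3 = 8 + (s + 1) by ring, show s + 4 + 3 = 6 + (s + 1) by ring]

theorem match_tau {i j n : ℕ} (h : ∀ t < n, u (i + t) = u (j + t)) :
    tau (i + n) - tau i = tau (j + n) - tau j ∧
      ∀ t < tau (i + n) - tau i, u (tau i + t) = u (tau j + t) := by
  have h1 : fac i n = fac j n := fac_eq_iff.2 h
  have h2 := fac_tau i n
  rw [h1, fac_tau] at h2
  have h3 := congrArg List.length h2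
  rw [fac_length, fac_length] at h3
  rw [h3] at h2
  exact ⟨h3.symm, fun t ht => (fac_eq_iff.1 h2 t (by omega)).symm⟩

theorem main (s : ℕ) : ∀ i j l, i < j → (∀ t < l, u (i + t) = u (j + t)) →
    u (i + l) ≠ u (j + l) → j + l < Nn s →
      l + 2 ≤ A s ∧ tau (i + l) + 1 ≤ tau i + l + B s := by
  induction s with
  | zero =>
    intro i j l hij hm hne hN
    have hN' : j + l < 29 := hN
    have h := base (i := i) (j := j) (l := l) hij hN' (fun t ht => by
      rw [u_T (by omega), u_T (by omega), hm t ht]) (by
      rw [u_T (by omega), u_T (by omega)]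
      intro h
      exact hne (Option.some.inj h))
    rw [tau_T (by omega), tau_T (by omega)]
    exact h
  | succ s ih =>
    -- pairs beginning with a letter of type `0`
    have key : ∀ i j l, i < j → ep i = false → 1 ≤ l → (∀ t < l, u (i + t) = u (j + t)) →
        u (i + l) ≠ u (j + l) → j + l < Nn (s + 1) →
          l + 2 ≤ A (s + 1) ∧ tau (i + l) + 1 ≤ tau i + l + B (s + 1) := by
      intro i j l hij hi hl hm hne hN
      have hj : ep j = false := by
        have := hm 0 (by omega)
        simp only [add_zero, u, Prod.mk.injEq] at this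
        rw [← this.2, hi]
      obtain ⟨i', hi' | ⟨hi', hi2⟩⟩ := cover i
      swap
      · rw [hi', ep_tau_add_one, hi2] at hi; exact absurd hi (by decide)
      obtain ⟨j', hj' | ⟨hj', hj2⟩⟩ := cover j
      swap
      · rw [hj', ep_tau_add_one, hj2] at hj; exact absurd hj (by decide)
      subst hi' hj'
      have hij' : i' < j' := tau_strictMono.lt_iff_lt.1 hij
      have hex : ∃ t, u (i' + t) ≠ u (j' + t) := by
        by_contra hcon
        push Not at hcon
        obtain ⟨h1, h2⟩ := match_tau (i := i') (j := j') (n := l + 1) (fun t _ => hcon t)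
        apply hne
        apply h2
        have : ∀ k, tau i' + k ≤ tau (i' + k) := by
          intro k
          induction k with
          | zero => simp
          | succ k ih2 =>
            have := tau_strictMono (show i' + k < i' + (k + 1) by omega)
            omega
        have := this (l + 1)
        omega
      classical
      obtain ⟨l', hl', hmin⟩ : ∃ l', u (i' + l') ≠ u (j' + l') ∧
          ∀ t < l', u (i' + t) = u (j' + t) :=
        ⟨Nat.find hex, Nat.find_spec hex, fun t ht => by
          have := Nat.find_min hex ht
          push Not at this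
          exact this⟩
      obtain ⟨h1, h2⟩ := match_tau hmin
      have hi3 : tau i' ≤ tau (i' + l') := tau_strictMono.monotone (by omega)
      have hj3 : tau j' ≤ tau (j' + l') := tau_strictMono.monotone (by omega)
      have hge : tau (i' + l') - tau i' ≤ l := by
        by_contra hcon
        push Not at hcon
        exact hne (h2 l hcon)
      have hle : l ≤ tau (i' + l') - tau i' + 1 := by
        by_contra hcon
        push Not at hcon
        have e1 := hm (tau (i' + l') - tau i') (by omega)
        have e2 := hm (tau (i' + l') - tau i' + 1) (by omega)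
        rw [show tau i' + (tau (i' + l') - tau i') = tau (i' + l') by omega,
          show tau j' + (tau (i' + l') - tau i') = tau (j' + l') by omega] at e1
        rw [show tau i' + (tau (i' + l') - tau i' + 1) = tau (i' + l') + 1 by omega,
          show tau j' + (tau (i' + l') - tau i' + 1) = tau (j' + l') + 1 by omega] at e2
        simp only [u, Prod.mk.injEq] at e1 e2
        rw [SZ_tau, SZ_tau] at e1
        rw [ep_tau_add_one, ep_tau_add_one] at e2
        apply hl'
        have e3 : ep (i' + l') = ep (j' + l') := by
          have := e2.2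
          revert this
          cases ep (i' + l') <;> cases ep (j' + l') <;> decide
        simp only [u, Prod.mk.injEq]
        exact ⟨e1.1, e3⟩
      have hN' : j' + l' < Nn s := by
        apply tau_strictMono.lt_iff_lt.1
        rw [tau_Nn]
        omega
      obtain ⟨h3, h4⟩ := ih i' j' l' hij' hmin hl' hN'
      rw [A_succ, B_succ]
      refine ⟨by omega, ?_⟩
      rcases Nat.lt_or_ge l (tau (i' + l') - tau i' + 1) with hlt | hge2
      · have : l = tau (i' + l') - tau i' := by omega
        rw [show tau i' + l = tau (i' + l') by omega, tau_tau, tau_tau]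
        omega
      · have : l = tau (i' + l') - tau i' + 1 := by omega
        rw [show tau i' + l = tau (i' + l') + 1 by omega, tau_tau, tau_tau_add_one]
        omega
    intro i j l hij hm hne hN
    have hB : 3 ≤ B (s + 1) := by
      rw [B_succ]
      unfold A
      have h1 := Nat.fib_mono (show 5 ≤ 5 + s by omega)
      have h2 : fib 5 = 5 := by decide
      omega
    have hA : 2 ≤ A (s + 1) := by
      unfold A
      have h1 := Nat.fib_mono (show 5 ≤ 5 + (s + 1) by omega)
      have h2 : fib 5 = 5 := by decide
      omega
    rcases Nat.eq_zero_or_pos l with rfl | hl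
    · refine ⟨by omega, ?_⟩
      simp only [add_zero]; omega
    cases hi : ep i
    · exact key i j l hij hi hl hm hne hN
    · have hj : ep j = true := by
        have := hm 0 (by omega)
        simp only [add_zero, u, Prod.mk.injEq] at this
        rw [← this.2, hi]
      obtain ⟨i', hi' | ⟨hi', hi2⟩⟩ := cover i
      · rw [hi', ep_tau] at hi; exact absurd hi (by decide)
      obtain ⟨j', hj' | ⟨hj', hj2⟩⟩ := cover j
      · rw [hj', ep_tau] at hj; exact absurd hj (by decide)
      have hprev : u (tau i') = u (tau j') := by
        have := hm 0 (by omega)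
        simp only [add_zero, u, Prod.mk.injEq] at this
        have e1 := (shift i').2.2 hi2
        have e2 := (shift j').2.2 hj2
        rw [hi', hj', e1.1, e2.1] at this
        simp only [u, Prod.mk.injEq, SZ_tau, ep_tau, and_true]
        have := this.1
        revert this
        cases SZ i' <;> cases SZ j' <;> decide
      have hk := key (tau i') (tau j') (l + 1) (by omega) (ep_tau _) (by omega) (by
        intro t ht
        rcases t with _ | t
        · simpa using hprev
        · have := hm t (by omega)
          rw [hi', hj'] at this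
          rw [show tau i' + (t + 1) = tau i' + 1 + t by ring,
            show tau j' + (t + 1) = tau j' + 1 + t by ring]
          exact this) (by
        rw [hi', hj'] at hne
        rw [show tau i' + (l + 1) = tau i' + 1 + l by ring,
            show tau j' + (l + 1) = tau j' + 1 + l by ring]
        exact hne) (by omega)
      have e3 : tau (tau i' + 1) = tau (tau i') + 2 := by rw [tau_succ, ep_tau]; simp
      rw [hi', e3]
      rw [show tau i' + (l + 1) = tau i' + 1 + l by ring] at hk
      omega

/-! ### Bounds for the maximum order complexity -/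

theorem upper_aux {s i j m : ℕ} (hij : i < j) (hm : ∀ t < m, SZ (i + t) = SZ (j + t))
    (hne : SZ (i + m) ≠ SZ (j + m)) (hN : j + m < Nn s) : m ≤ A s + 1 := by
  have hA : 7 ≤ A s := by
    unfold A
    have h1 := Nat.fib_mono (show 5 ≤ 5 + s by omega)
    have h3 := Nat.fib_mono (show 3 ≤ 3 + s by omega)
    have h2 : fib 5 = 5 := by decide
    have h4 : fib 3 = 2 := by decide
    omega
  rcases Nat.lt_or_ge m 4 with h | h
  · omega
  have hex : ∃ t, u (i + 1 + t) ≠ u (j + 1 + t) := by
    refine ⟨m - 1, fun hcon => hne ?_⟩
    rw [show i + 1 + (m - 1) = i + m by omega, show j + 1 + (m - 1) = j + m by omega] at hcon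
    exact congrArg Prod.fst hcon
  classical
  obtain ⟨l, hl, hmin⟩ : ∃ l, u (i + 1 + l) ≠ u (j + 1 + l) ∧
      ∀ t < l, u (i + 1 + t) = u (j + 1 + t) :=
    ⟨Nat.find hex, Nat.find_spec hex, fun t ht => by
      have := Nat.find_min hex ht
      push Not at this
      exact this⟩
  have hge : m - 3 ≤ l := by
    by_contra hcon
    push Not at hcon
    apply hl
    rw [show i + 1 + l = i + l + 1 by ring, show j + 1 + l = j + l + 1 by ring]
    apply recog
    intro t ht
    have := hm (l + t) (by omega)
    rw [← add_assoc, ← add_assoc] at this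
    exact this
  have hle : l ≤ m - 1 := by
    by_contra hcon
    push Not at hcon
    have := hmin (m - 1) hcon
    rw [show i + 1 + (m - 1) = i + m by omega, show j + 1 + (m - 1) = j + m by omega] at this
    exact hne (congrArg Prod.fst this)
  have := (main s (i + 1) (j + 1) l (by omega) hmin hl (by omega)).1
  omega

theorem M_le (s : ℕ) : M SZ (Nn s) ≤ A s + 2 := by
  apply Nat.sInf_le
  classical
  refine ⟨fun w => decide (∃ i, i + (A s + 2) < Nn s ∧ (fun t : Fin (A s + 2) => SZ (i + t)) = w ∧
    SZ (i + (A s + 2)) = true), ?_⟩
  intro i hi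
  have hcons : ∀ i' j', i' < j' → j' + (A s + 2) < Nn s →
      (∀ t < A s + 2, SZ (i' + t) = SZ (j' + t)) → SZ (i' + (A s + 2)) = SZ (j' + (A s + 2)) := by
    intro i' j' hij hj hw
    by_contra hne
    have := upper_aux hij hw hne hj
    omega
  cases h : SZ (i + (A s + 2))
  · symm
    rw [decide_eq_false_iff_not]
    rintro ⟨i', hi', hw, hi2⟩
    have hw' : ∀ t < A s + 2, SZ (i' + t) = SZ (i + t) := fun t ht => congrFun hw ⟨t, ht⟩
    rcases Nat.lt_trichotomy i' i with hlt | rfl | hlt
    · have := hcons _ _ hlt hi hw'
      rw [h, hi2] at this; exact absurd this (by decide)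
    · rw [h] at hi2; exact absurd hi2 (by decide)
    · have := hcons _ _ hlt hi' (fun t ht => (hw' t ht).symm)
      rw [h, hi2] at this; exact absurd this (by decide)
  · symm
    rw [decide_eq_true_iff]
    exact ⟨i, hi, rfl, h⟩

theorem le_M {s N : ℕ} (hN : Nn s < N) : fib (6 + s) + 1 ≤ M SZ N := by
  apply le_csInf
  · refine ⟨N, fun _ => false, fun i hi => ?_⟩
    exfalso; omega
  · rintro k ⟨f, hf⟩
    by_contra hcon
    push Not at hcon
    have hk : k ≤ fib (6 + s) := by omega
    have h7 : fib (7 + s) = fib (s + 5 + 2) := by ring_nf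
    have h8 : fib (8 + s) = fib (s + 6 + 2) := by ring_nf
    have h6 : fib (6 + s) = fib (s + 5 + 1) := by ring_nf
    have e1 : ∀ t < fib (6 + s), SZ (fib (7 + s) + t) = !SZ t := by
      intro t ht
      rw [h7]; exact SZ_add (by rw [← h6]; exact ht)
    have e2 : ∀ t < fib (7 + s), SZ (fib (8 + s) + t) = !SZ t := by
      intro t ht
      rw [h8]
      exact SZ_add (by
        rw [h7] at ht
        rw [show s + 6 + 1 = s + 5 + 2 by ring]
        exact ht)
    have hsum : fib (7 + s) + fib (6 + s) = fib (8 + s) := by
      rw [show 8 + s = (6 + s) + 2 by ring, Nat.fib_add_two, show 6 + s + 1 = 7 + s by ring]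
      ring
    have hlt : fib (6 + s) < fib (7 + s) := by
      rw [show 7 + s = (6 + s) + 1 by ring]
      exact Nat.fib_lt_fib_succ (by omega)
    have hpos : 0 < fib (6 + s) := Nat.fib_pos.2 (by omega)
    -- the two successors
    have s1 : SZ (fib (7 + s) + (fib (6 + s) - k) + k) = true := by
      rw [show fib (7 + s) + (fib (6 + s) - k) + k = fib (8 + s) + 0 by omega, e2 0 (by omega),
        SZ_zero]
      rfl
    have s2 : SZ (fib (8 + s) + (fib (6 + s) - k) + k) = false := by
      rw [show fib (8 + s) + (fib (6 + s) - k) + k = fib (8 + s) + fib (6 + s) by omega,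
        e2 _ hlt]
      have := SZ_add (k := s + 4) (t := 0) (Nat.fib_pos.2 (by omega))
      rw [add_zero, show s + 4 + 2 = 6 + s by ring, SZ_zero] at this
      rw [this]; rfl
    have g1 := hf (fib (7 + s) + (fib (6 + s) - k)) (by unfold Nn at hN; omega)
    have g2 := hf (fib (8 + s) + (fib (6 + s) - k)) (by unfold Nn at hN; omega)
    have hw : (fun t : Fin k => SZ (fib (7 + s) + (fib (6 + s) - k) + t)) =
        fun t : Fin k => SZ (fib (8 + s) + (fib (6 + s) - k) + t) := by
      funext t
      have ht := t.2
      rw [add_assoc, add_assoc, e1 _ (by omega), e2 _ (by omega)]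
    rw [s1, hw] at g1
    rw [s2] at g2
    rw [← g2] at g1
    exact absurd g1 (by decide)

theorem Nn_le (s : ℕ) : Nn s ≤ 36 * fib (2 + s) := by
  unfold Nn
  have h : ∀ n, 0 < n → fib (n + 2) ≤ 3 * fib n := by
    intro n hn
    obtain ⟨m, rfl⟩ := Nat.exists_eq_succ_of_ne_zero hn.ne'
    have h1 := Nat.fib_add_two (n := m.succ)
    have h2 := Nat.fib_add_two (n := m)
    have h3 := Nat.fib_mono (Nat.le_succ m)
    simp only [Nat.succ_eq_add_one] at *
    rw [show m + 1 + 1 = m + 2 by ring] at h1
    omega
  have a1 := h (2 + s) (by omega)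
  have a2 := h (4 + s) (by omega)
  have a3 := h (6 + s) (by omega)
  rw [show 2 + s + 2 = 4 + s by ring] at a1
  rw [show 4 + s + 2 = 6 + s by ring] at a2
  rw [show 6 + s + 2 = 8 + s by ring] at a3
  omega

theorem gap (s : ℕ) : A s + 2 + fib (2 + s) ≤ fib (6 + s) + 1 + 1 := by
  unfold A
  have h1 : fib (6 + s) = fib (4 + s) + fib (5 + s) := by
    rw [show 6 + s = 4 + s + 2 by ring, Nat.fib_add_two, show 4 + s + 1 = 5 + s by ring]
  have h2 : fib (4 + s) = fib (2 + s) + fib (3 + s) := by
    rw [show 4 + s = 2 + s + 2 by ring, Nat.fib_add_two, show 2 + s + 1 = 3 + s by ring]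
  omega

theorem Nn_tendsto : Tendsto Nn atTop atTop := by
  apply tendsto_atTop_mono (f := fun s => s)
  · intro s
    unfold Nn
    have := Nat.le_fib_add_one (8 + s)
    omega
  · exact tendsto_id

/-- `M(S_Z, L_{s+7}) ≤ L_{s+4} + 2` and `M(S_Z, N) ≥ F_{s+6} + 1` for all `N > L_{s+7}`, where
`L_n = F_{n+1} + F_{n-1}` are the Lucas numbers. Hence `M(S_Z, N) / N` has no limit; in particular
`M(S_Z, N)` is not asymptotic to `N / (1 + φ²)`. -/
theorem result :
    (∀ s, M SZ (fib (s + 8) + fib (s + 6)) ≤ fib (s + 5) + fib (s + 3) + 2) ∧
    (∀ s N, fib (s + 8) + fib (s + 6) < N → fib (s + 6) + 1 ≤ M SZ N) ∧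
    ¬ ∃ c : ℝ, Tendsto (fun N : ℕ => (M SZ N : ℝ) / N) atTop (𝓝 c) := by
  refine ⟨fun s => ?_, fun s N h => ?_, ?_⟩
  · have := M_le s
    unfold Nn A at this
    simpa [add_comm] using this
  · have := le_M (s := s) (N := N) (by unfold Nn; simpa [add_comm] using h)
    simpa [add_comm] using this
  · rintro ⟨c, hc⟩
    have h1 : Tendsto (fun s => (M SZ (Nn s) : ℝ) / (Nn s : ℕ)) atTop (𝓝 c) :=
      hc.comp Nn_tendsto
    have h2 : Tendsto (fun s => (M SZ (Nn s + 1) : ℝ) / ((Nn s + 1 : ℕ) : ℝ)) atTop (𝓝 c) :=
      hc.comp (tendsto_atTop_mono (fun s => Nat.le_succ (Nn s)) Nn_tendsto)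
    have h3 : Tendsto (fun s => ((Nn s + 1 : ℕ) : ℝ) / (Nn s : ℕ)) atTop (𝓝 1) := by
      have h4 : Tendsto (fun s => 1 + 1 / ((Nn s : ℕ) : ℝ)) atTop (𝓝 (1 + 0)) := by
        apply Tendsto.const_add
        exact tendsto_one_div_atTop_nhds_zero_nat.comp Nn_tendsto
      rw [add_zero] at h4
      refine h4.congr' ?_
      filter_upwards [Nn_tendsto.eventually_gt_atTop 0] with s hs
      have : (0 : ℝ) < (Nn s : ℕ) := by exact_mod_cast hs
      push_cast
      field_simp
    have h5 : Tendsto (fun s => (M SZ (Nn s + 1) : ℝ) / ((Nn s + 1 : ℕ) : ℝ) *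
        (((Nn s + 1 : ℕ) : ℝ) / (Nn s : ℕ)) - (M SZ (Nn s) : ℝ) / (Nn s : ℕ)) atTop
        (𝓝 (c * 1 - c)) := (h2.mul h3).sub h1
    rw [mul_one, sub_self] at h5
    have h6 := h5.eventually (gt_mem_nhds (show (0 : ℝ) < 1 / 72 by norm_num))
    obtain ⟨s, hs1, hs2, hs3⟩ := (h6.and ((eventually_ge_atTop 1).and
      (Nn_tendsto.eventually_gt_atTop 0))).exists
    have hN : (0 : ℝ) < (Nn s : ℕ) := by exact_mod_cast hs3
    have hN1 : (0 : ℝ) < ((Nn s + 1 : ℕ) : ℝ) := by positivity
    have e1 : (M SZ (Nn s + 1) : ℝ) / ((Nn s + 1 : ℕ) : ℝ) *
        (((Nn s + 1 : ℕ) : ℝ) / (Nn s : ℕ)) - (M SZ (Nn s) : ℝ) / (Nn s : ℕ) =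
        ((M SZ (Nn s + 1) : ℝ) - M SZ (Nn s)) / (Nn s : ℕ) := by
      field_simp
    rw [e1, div_lt_iff₀ hN] at hs1
    have g1 := M_le s
    have g2 := le_M (s := s) (N := Nn s + 1) (by omega)
    have g3 := Nn_le s
    have g4 := gap s
    have g5 : 2 ≤ fib (2 + s) := by
      have := Nat.fib_mono (show 3 ≤ 2 + s by omega)
      have h2 : fib 3 = 2 := by decide
      omega
    have g6 : M SZ (Nn s) + fib (2 + s) ≤ M SZ (Nn s + 1) + 1 := by omega
    have g6' : (M SZ (Nn s) : ℝ) + fib (2 + s) ≤ M SZ (Nn s + 1) + 1 := by exact_mod_cast g6
    have g5' : (2 : ℝ) ≤ fib (2 + s) := by exact_mod_cast g5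
    have g3' : ((Nn s : ℕ) : ℝ) ≤ 36 * fib (2 + s) := by exact_mod_cast g3
    linarith

end Pool.Agent.Results.MP_b74c76_co.NoLimit
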